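import Pool.Agent.H343.AN.StAB

set_option autoImplicit false

/-! # MP_aa4716_al, project AN: B2 (`S_redpd`, from `S_near`) and B3 (`S_wind`) -/

namespace Pool.Agent.H161.AN

open Pool.Agent.TH68 Pool.Agent.Helper97.Hyp Pool.Agent.H343.AN

/-- B2: projections of almost minimal pairs. -/
theorem redpd (hnear : S_near) : S_redpd := by
  intro Γ _ W 𝒜 _ Y R hρ A p q η hη hred
  have hδ := Y.hδ
  have hθ := Y.hθ
  rcases le_or_gt (pd (Y.S A) p q) (3 * Y.θ) with h3 | h3
  · have : (0:ℝ) ≤ R.ρ := by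
      refine le_trans ?_ hρ
      have : (1:ℝ) ≤ Y.θ := le_trans hδ hθ
      positivity
    have : (1:ℝ) ≤ Y.θ := le_trans hδ hθ
    linarith
  · obtain ⟨p', hp'⟩ := Y.proj A p
    obtain ⟨q', hq'⟩ := Y.proj A q
    obtain ⟨h4, -, -⟩ := hnear Y A hp' hq' h3
    obtain ⟨r, hr, h5⟩ := R.cob A q' hq'.1 p' hp'.1
    have h6 := hred r⁻¹ (R.N.inv_mem (R.G_le A hr))
    have h7 : dist p (r⁻¹ • q) = dist (r • p) q := by
      rw [← dist_smul r p, smul_inv_smul]
    have h8 : dist (r • p) q ≤ dist (r • p) (r • p') + dist (r • p') q' + dist q' q :=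
      dist_triangle4 _ _ _ _
    rw [dist_smul, dist_comm (r • p') q', dist_comm q' q] at h8
    rw [h7] at h6
    linarith

/-- B3: the windmill property, in terms of coarse projection distances. -/
theorem wind : S_wind := by
  intro Γ _ W 𝒜 _ Y R n hn hn1 x
  have hδ := Y.hδ
  have hθ := Y.hθ
  obtain ⟨A, r, hr, hr1, hw⟩ := R.wind n hn hn1 x
  refine ⟨A, r, hr, hr1, hw, ?_⟩
  obtain ⟨x', hx'⟩ := Y.proj A x
  have h1 := IsProj.fix Y (R.fix A r hr) hx'
  have h2 := le_pd_of_proj hx' h1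
  have h3 := R.far A r hr hr1 x' hx'.1
  have h4 := pd_tri (Y.Sne A) x (n • x) (r • x)
  rw [pd_symm (Y.Sne A) (n • x) (r • x)] at h4
  linarith

end Pool.Agent.H161.AN
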