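import Pool.Agent.H343.AN.StE

set_option autoImplicit false

/-! # MP_aa4716_al, project AN: E5 (the cutting points are in the thin annulus or in `SigOne`) -/

namespace Pool.Agent.H161.AN

open Pool.Agent.TH68 Pool.Agent.Helper97.Hyp Pool.Agent.H343.AN

/-- a point of `[o, u]` between the projections of `o` and `u` (up to an error) is near the axis -/
lemma near_axis {Γ : Type} [Group Γ] {W : WNorm Γ} {𝒜 : Type} [MulAction Γ 𝒜]
    (Y : Sys Γ W 𝒜) (A : 𝒜) {o u p e x' : Pt W} {c : ℝ}
    (hp : exc o u p = 0) (he : IsProj Y.θ (Y.S A) o e) (hx' : IsProj Y.θ (Y.S A) u x')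
    (hxe : exc o u x' ≤ 4 * Y.θ) (hpe : dist o e ≤ dist o p + c)
    (hpx : dist o p ≤ dist o x' + c) (hc : 0 ≤ c) :
    ∃ q ∈ Y.S A, dist p q ≤ 6 * Y.θ + c := by
  have hδ := Y.hδ
  have hθ := Y.hθ
  rcases exc_split Y.hyp o u x' p with h1 | h1
  · rcases exc_split Y.hyp o x' e p with h2 | h2
    · refine ⟨e, he.1, ?_⟩
      unfold exc at h1 h2 hp
      linarith
    · obtain ⟨s, hs⟩ := Y.proj A p
      refine ⟨s, hs.1, ?_⟩
      have h3 := hs.2 e he.1
      have h4 := hs.2 x' hx'.1
      have h5 := dist_triangle e s x'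
      rw [dist_comm e s] at h5
      unfold exc at h1 h2 hp
      rw [dist_comm e p] at h2
      linarith
  · refine ⟨x', hx'.1, ?_⟩
    unfold exc at h1 hp hxe
    rw [dist_comm x' p] at h1
    linarith

/-- E5: the cutting points are in the thin annulus or in `SigOne`. -/
theorem e5 (hB : ToolB) (h2 : S_e2) : S_e5 := by
  intro Γ _ W 𝒜 _ Y R W' hQ hρ b s x hs hx
  have hδ := Y.hδ
  have hθ := Y.hθ
  have hθ1 : (1:ℝ) ≤ Y.θ := le_trans hδ hθ
  obtain ⟨hψ, -, hb1, -, -, hbK, hz⟩ := h2 Y R W' hQ hρ (b:ℝ) x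
  obtain ⟨hz1, hz2, hz3⟩ := hz (Nat.cast_nonneg b) hx
  obtain ⟨hu1, hu2, hu3⟩ := lft_spec R hQ x
  set u := lft R W' x with hu
  set p := zed R W' b x with hp
  have hd : dist (pt W' 1) (prj W W' p) = dist (pt W 1) p := by
    have := (red_iff hQ (pt W 1) p).1 hz3
    rwa [prj_one] at this
  have hbf : (b:ℝ) ≤ (⌊bet R W' b x⌋₊ : ℝ) := by
    exact_mod_cast Nat.le_floor hb1
  have hfl : (⌊bet R W' b x⌋₊ : ℝ) ≤ bet R W' b x :=
    Nat.floor_le (le_trans (Nat.cast_nonneg b) hb1)
  refine ⟨?_, ?_, ?_⟩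
  · rcases le_or_gt (dist (pt W' 1) (prj W W' p)) (b + 2 * s) with h3 | h3
    · left
      exact ⟨by rw [hd, hz2]; exact hbf, h3⟩
    · right
      refine ⟨h3.le, ?_⟩
      rw [hd, hz2] at h3
      -- the axis
      have hA : ∃ A, bet R W' b x - 1 / 2 < b + psi R W' b A x := by
        by_contra hcon
        push Not at hcon
        have := hbK (bet R W' b x - 1 / 2) (by linarith) hcon
        linarith
      obtain ⟨A, hA⟩ := hA
      have hpos : 0 < psi R W' b A x := by linarith
      have hent : ent R A ≤ b := by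
        by_contra hcon
        unfold psi at hpos
        rw [if_neg hcon] at hpos
        exact lt_irrefl _ hpos
      have hpsi : psi R W' b A x = phi R.ρ (pd (Y.S A) (pt W 1) u) *
          max 0 (ent R A + pd (Y.S A) (pt W 1) u - b) := by
        unfold psi
        rw [if_pos hent]
      have hphi0 : 0 ≤ phi R.ρ (pd (Y.S A) (pt W 1) u) := le_max_left _ _
      have hphi1 : phi R.ρ (pd (Y.S A) (pt W 1) u) ≤ 1 :=
        max_le zero_le_one (min_le_left _ _)
      have hmax0 : 0 ≤ max 0 (ent R A + pd (Y.S A) (pt W 1) u - b) := le_max_left _ _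
      have hle : psi R W' b A x ≤ max 0 (ent R A + pd (Y.S A) (pt W 1) u - b) := by
        rw [hpsi]
        exact mul_le_of_le_one_left hmax0 hphi1
      have hpd1 : bet R W' b x - 1 / 2 < ent R A + pd (Y.S A) (pt W 1) u := by
        rcases max_cases 0 (ent R A + pd (Y.S A) (pt W 1) u - b) with ⟨h4, -⟩ | ⟨h4, -⟩
        · rw [h4] at hle; linarith
        · rw [h4] at hle; linarith
      have hphipos : 0 < phi R.ρ (pd (Y.S A) (pt W 1) u) := by
        rcases hphi0.eq_or_lt with h4 | h4
        · rw [hpsi, ← h4, zero_mul] at hpos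
          exact absurd hpos (lt_irrefl _)
        · exact h4
      have hρ0 : 0 < R.ρ := by linarith
      have hpd2 : R.ρ / 2 - R.ρ / 50 < pd (Y.S A) (pt W 1) u := by
        by_contra hcon
        push Not at hcon
        have h4 : (pd (Y.S A) (pt W 1) u - (R.ρ / 2 - R.ρ / 50)) / (R.ρ / 100) ≤ 0 :=
          div_nonpos_of_nonpos_of_nonneg (by linarith) (by linarith)
        have h5 : phi R.ρ (pd (Y.S A) (pt W 1) u) ≤ 0 := by
          unfold phi
          exact max_le le_rfl (le_trans (min_le_right _ _) h4)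
        linarith
      -- the projections
      obtain ⟨e, he⟩ := Y.proj A (pt W 1)
      obtain ⟨x', hx'⟩ := Y.proj A u
      obtain ⟨h6, h7, h8⟩ := hB.near Y A he hx' (by linarith)
      have h9 : Redu R.N (4 * Y.θ) (pt W 1) e := Redu.sub hu3 h7
      have h10 := hB.entlev Y R hρ A (m := 1) (e := e) (η := 4 * Y.θ) R.N.one_mem (by linarith)
        (by linarith) (by rwa [one_smul]) (by rwa [one_smul])
      rw [one_smul, abs_le] at h10
      obtain ⟨q, hq, hpq⟩ := near_axis Y A (c := 50 * Y.θ) hz1 he hx' h8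
        (by rw [hz2]; linarith)
        (by
          have h11 := dist_triangle (pt W 1) x' u
          rw [dist_comm x' u] at h11
          rw [hz2]; linarith) (by linarith)
      exact ⟨A, hent, p, rfl, hz3, q, hq, by linarith⟩
  · rw [hd, hz2]; exact hbf
  · apply le_antisymm
    · have h3 := prj_le hQ p u
      rw [hu1] at h3
      unfold exc at hz1 ⊢
      rw [hd, ← hu2]
      linarith
    · exact exc_nonneg _ _ _

end Pool.Agent.H161.AN
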